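import Pool.Agent.Q164.LZ.IN

open Filter Topology Set Real MeasureTheory

noncomputable section

namespace Pool.Agent.Q164.LZ

/-- the algebra generated by `π²`, `log 2` and the odd zeta values -/
def Alg : Subalgebra ℚ ℝ :=
  Algebra.adjoin ℚ ({π ^ 2, log 2} ∪ {y | ∃ k : ℕ, Odd k ∧ 3 ≤ k ∧ y = Zt k})

theorem pi_mem : π ^ 2 ∈ Alg := Algebra.subset_adjoin (by simp)

theorem log2_mem : log 2 ∈ Alg := Algebra.subset_adjoin (by simp)

theorem rat_mem (q : ℚ) : (q : ℝ) ∈ Alg := by
  have := Alg.algebraMap_mem q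
  simpa using this

theorem rat_mul {y : ℝ} (q : ℚ) (h : y ∈ Alg) : (q : ℝ) * y ∈ Alg := Alg.mul_mem (rat_mem q) h

theorem Zt_even (k : ℕ) (hk : k ≠ 0) : Zt (2 * k) =
    (-1) ^ (k + 1) * 2 ^ (2 * k - 1) * π ^ (2 * k) * bernoulli (2 * k) / (2 * k).factorial := by
  have h := hasSum_zeta_nat hk
  have h0 : 1 / ((0 : ℕ) : ℝ) ^ (2 * k) = 0 := by
    simp [hk]
  have h1 := h.tsum_eq
  rw [h.summable.tsum_eq_zero_add, h0, zero_add] at h1
  rw [← h1]
  unfold Zt
  refine tsum_congr fun n => ?_
  push_cast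
  rfl

theorem Zt_mem (k : ℕ) (hk : 2 ≤ k) : Zt k ∈ Alg := by
  rcases Nat.even_or_odd k with he | ho
  · obtain ⟨m, rfl⟩ := he
    rw [← two_mul, Zt_even m (by omega)]
    have : ((-1) ^ (m + 1) * 2 ^ (2 * m - 1) * π ^ (2 * m) * bernoulli (2 * m) /
        (2 * m).factorial : ℝ) = ((((-1) ^ (m + 1) * 2 ^ (2 * m - 1) * bernoulli (2 * m) /
        (2 * m).factorial : ℚ)) : ℝ) * (π ^ 2) ^ m := by
      push_cast
      rw [pow_mul]
      ring
    rw [this]
    exact rat_mul _ (Alg.pow_mem pi_mem m)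
  · refine Algebra.subset_adjoin (Or.inr ⟨k, ho, ?_, rfl⟩)
    obtain ⟨m, rfl⟩ := ho
    omega

open Polynomial

/-- polynomials with coefficients in the algebra -/
def good (p : ℝ[X]) : Prop := ∀ i, p.coeff i ∈ Alg

theorem good_add {p q : ℝ[X]} (hp : good p) (hq : good q) : good (p + q) := fun i => by
  rw [coeff_add]; exact Alg.add_mem (hp i) (hq i)

theorem good_sub {p q : ℝ[X]} (hp : good p) (hq : good q) : good (p - q) := fun i => by
  rw [coeff_sub]; exact Alg.sub_mem (hp i) (hq i)

theorem good_mul {p q : ℝ[X]} (hp : good p) (hq : good q) : good (p * q) := fun i => by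
  rw [coeff_mul]; exact Alg.sum_mem fun x _ => Alg.mul_mem (hp _) (hq _)

theorem good_C {y : ℝ} (h : y ∈ Alg) : good (C y) := fun i => by
  rw [coeff_C]
  split_ifs
  · exact h
  · exact Alg.zero_mem

theorem good_one : good 1 := by
  rw [← C_1]
  exact good_C Alg.one_mem

theorem good_X : good X := fun i => by
  rw [coeff_X]
  split_ifs
  · exact Alg.one_mem
  · exact Alg.zero_mem

theorem good_pow {p : ℝ[X]} (hp : good p) (n : ℕ) : good (p ^ n) := by
  induction n with
  | zero => rw [pow_zero]; exact good_one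
  | succ n ih => rw [pow_succ]; exact good_mul ih hp

theorem good_sum {ι : Type} (s : Finset ι) (f : ι → ℝ[X]) (h : ∀ i ∈ s, good (f i)) :
    good (∑ i ∈ s, f i) := fun j => by
  rw [finsetSum_coeff]
  exact Alg.sum_mem fun i hi => h i hi j

/-- the coefficient polynomials of the exponent -/
theorem e_poly (k : ℕ) : ∃ p : ℝ[X], good p ∧ ∀ x : ℝ, p.eval x = e x k := by
  rcases Nat.lt_or_ge k 2 with hk | hk
  · refine ⟨0, fun i => by rw [coeff_zero]; exact Alg.zero_mem, fun x => ?_⟩
    rw [eval_zero]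
    unfold e
    interval_cases k <;> simp
  · refine ⟨C (((((-1) ^ k / k : ℚ)) : ℝ) * Zt k) * (X ^ k + 1 - (X + 1) ^ k), ?_, fun x => ?_⟩
    · exact good_mul (good_C (rat_mul _ (Zt_mem k hk)))
        (good_sub (good_add (good_pow good_X k) good_one)
          (good_pow (good_add good_X good_one) k))
    · simp only [eval_mul, eval_C, eval_sub, eval_add, eval_pow, eval_X, eval_one]
      unfold e
      push_cast
      ring

theorem a_rec {x : ℝ} (hx : 0 < x) (N : ℕ) : ((N + 1 : ℕ) : ℝ) * a x (N + 1) =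
    ∑ k ∈ Finset.range (N + 1), (((k + 1 : ℕ) : ℝ) * e x (k + 1)) * a x (N - k) := by
  set r : ℝ := 1 / (2 * (x + 1)) with hr
  have hr0 : 0 < r := by positivity
  have hr1 : (x + 1) * r < 1 := by
    rw [hr]
    field_simp
    norm_num
  have hr2 : x * r < 1 := by nlinarith
  have hr3 : r < 1 := by nlinarith
  refine exp_rec hr0 (a_summ hx hr0 hr3 hr2) (e_summ hx hr0 hr1) ?_ N
  intro z hz
  have hz1 : (x + 1) * z < 1 := by nlinarith [hz.1, hz.2]
  rw [a_tsum hx hz.1 (by linarith [hz.2]) (by nlinarith [hz.1, hz.2]),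
    Gamma_ratio hx hz.1 hz1]

/-- the Taylor coefficients are polynomials with coefficients in the algebra -/
theorem a_poly (N : ℕ) : ∃ p : ℝ[X], good p ∧ ∀ x : ℝ, 0 < x → p.eval x = a x N := by
  induction N using Nat.strong_induction_on with
  | _ N ih =>
    rcases N with _ | N
    · exact ⟨1, good_one, fun x _ => by rw [eval_one]; rfl⟩
    · choose! q hq1 hq2 using ih
      choose p hp1 hp2 using e_poly
      refine ⟨C ((((1 / (N + 1 : ℕ) : ℚ)) : ℝ)) * ∑ k ∈ Finset.range (N + 1),
        (C ((((k + 1 : ℕ) : ℚ)) : ℝ) * p (k + 1)) * q (N - k), ?_, fun x hx => ?_⟩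
      · refine good_mul (good_C (rat_mem _)) (good_sum _ _ fun k _ => ?_)
        exact good_mul (good_mul (good_C (rat_mem _)) (hp1 _)) (hq1 _ (by omega))
      · have h1 := a_rec hx N
        rw [eval_mul, eval_C, eval_finsetSum]
        have h2 : ∀ k ∈ Finset.range (N + 1),
            eval x ((C ((((k + 1 : ℕ) : ℚ)) : ℝ) * p (k + 1)) * q (N - k)) =
              (((k + 1 : ℕ) : ℝ) * e x (k + 1)) * a x (N - k) := by
          intro k _
          rw [eval_mul, eval_mul, eval_C, hp2, hq2 _ (by omega) x hx]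
          push_cast
          rfl
        rw [Finset.sum_congr rfl h2, ← h1]
        push_cast
        have : (N : ℝ) + 1 ≠ 0 := by positivity
        field_simp

/-- the basic integrals -/
def J (p q : ℕ) : ℝ := ∫ u in Ioo (0 : ℝ) 1, log u ^ p * log (1 - u) ^ q / u

theorem J_integrable (p : ℕ) {q : ℕ} (hq : 1 ≤ q) :
    IntegrableOn (fun u => log u ^ p * log (1 - u) ^ q / u) (Ioo 0 1) := by
  have h1 := (T_integrable (p + q) one_pos).norm
  refine Integrable.mono' h1 (Measurable.aestronglyMeasurable (by fun_prop)) ?_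
  rw [ae_restrict_iff' measurableSet_Ioo]
  refine Filter.Eventually.of_forall fun u hu => ?_
  have hA : 0 < -log u := by linarith [log_neg hu.1 hu.2]
  have hB : 0 < -log (1 - u) := by
    have := log_neg (x := 1 - u) (by linarith [hu.2]) (by linarith [hu.1])
    linarith
  rw [Real.norm_eq_abs, Real.norm_eq_abs, T_abs one_pos hu, abs_div, abs_of_pos hu.1, abs_mul,
    abs_pow, abs_pow, one_mul, ← abs_neg (log u), ← abs_neg (log (1 - u)), abs_of_pos hA,
    abs_of_pos hB]
  refine div_le_div_of_nonneg_right ?_ hu.1.le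
  set A := -log u
  set B := -log (1 - u)
  have h2 : (A + B) ^ (p + q) = ∑ m ∈ Finset.range (p + q + 1),
      A ^ m * B ^ (p + q - m) * (p + q).choose m := add_pow A B (p + q)
  rw [h2, Finset.sum_range_succ]
  have h3 : A ^ (p + q) * B ^ (p + q - (p + q)) * ((p + q).choose (p + q) : ℝ) = A ^ (p + q) := by
    simp
  rw [h3, add_sub_cancel_right]
  have h4 := Finset.single_le_sum (f := fun m => A ^ m * B ^ (p + q - m) * ((p + q).choose m : ℝ))
    (fun m _ => by positivity) (Finset.mem_range.2 (by omega : p < p + q))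
  refine le_trans ?_ h4
  simp only [Nat.add_sub_cancel_left]
  have h5 : (1 : ℝ) ≤ ((p + q).choose p : ℝ) := by
    exact_mod_cast Nat.choose_pos (by omega)
  have h6 : 0 ≤ A ^ p * B ^ q := by positivity
  nlinarith

theorem Q_expand (N : ℕ) (x : ℝ) : Q N x = ∑ m ∈ Finset.range N,
    (N.choose (m + 1) : ℝ) * x ^ (N - (m + 1)) * J (N - (m + 1)) (m + 1) := by
  have h1 : ∀ u : ℝ, T N x u = ∑ m ∈ Finset.range N, ((N.choose (m + 1) : ℝ) *
      x ^ (N - (m + 1))) * (log u ^ (N - (m + 1)) * log (1 - u) ^ (m + 1) / u) := by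
    intro u
    unfold T
    rw [add_comm (x * log u), add_pow, Finset.sum_range_succ']
    simp only [pow_zero, Nat.sub_zero, one_mul, Nat.choose_zero_right, Nat.cast_one, mul_one,
      add_sub_cancel_right]
    rw [Finset.sum_div]
    refine Finset.sum_congr rfl fun m _ => ?_
    rw [mul_pow]
    ring
  unfold Q J
  simp only [h1]
  rw [integral_finsetSum _ fun m _ => ((J_integrable _ (by omega)).const_mul _)]
  refine Finset.sum_congr rfl fun m _ => ?_
  rw [integral_const_mul]

/-- the basic integrals lie in the algebra -/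
theorem J_mem (p : ℕ) {q : ℕ} (hq : 1 ≤ q) : J p q ∈ Alg := by
  obtain ⟨m, rfl⟩ : ∃ m, q = m + 1 := ⟨q - 1, by omega⟩
  set N := p + (m + 1) with hN
  obtain ⟨P, hP1, hP2⟩ := a_poly (N + 1)
  set R : ℝ[X] := ∑ m ∈ Finset.range N,
    C ((N.choose (m + 1) : ℝ) * J (N - (m + 1)) (m + 1) / N.factorial) * X ^ (N - m) with hR
  have hPR : P = R := by
    refine Polynomial.eq_of_infinite_eval_eq P R ((Set.Ioi_infinite (0 : ℝ)).mono ?_)
    intro x hx
    show eval x P = eval x R
    rw [hP2 x hx, hR, eval_finsetSum]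
    simp only [a]
    rw [Q_expand, Finset.mul_sum, Finset.sum_div]
    refine Finset.sum_congr rfl fun k hk => ?_
    have hk' := Finset.mem_range.1 hk
    rw [eval_mul, eval_C, eval_pow, eval_X]
    have : x ^ (N - k) = x ^ (N - (k + 1)) * x := by
      rw [← pow_succ]
      congr 1
      omega
    rw [this]
    ring
  have hc := hP1 (N - m)
  rw [hPR, hR, finsetSum_coeff] at hc
  rw [Finset.sum_eq_single m] at hc
  · rw [coeff_C_mul, coeff_X_pow, if_pos rfl, mul_one] at hc
    have h1 : N - (m + 1) = p := by omega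
    rw [h1] at hc
    have h2 : (0 : ℝ) < (N.choose (m + 1) : ℝ) := by
      exact_mod_cast Nat.choose_pos (by omega)
    have h3 : (0 : ℝ) < N.factorial := by exact_mod_cast Nat.factorial_pos N
    have h4 : J p (m + 1) = (((N.factorial / N.choose (m + 1) : ℚ)) : ℝ) *
        ((N.choose (m + 1) : ℝ) * J p (m + 1) / N.factorial) := by
      push_cast
      field_simp
    rw [h4]
    exact rat_mul _ hc
  · intro k hk hkm
    have hk' := Finset.mem_range.1 hk
    rw [coeff_C_mul, coeff_X_pow, if_neg (by omega), mul_zero]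
  · intro hm
    exact absurd (Finset.mem_range.2 (by omega)) hm

end Pool.Agent.Q164.LZ
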