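import Pool.Agent.Q164.LZ.AL

open Filter Topology Set Real MeasureTheory

noncomputable section

namespace Pool.Agent.Q164.LZ

/-- the auxiliary integrand -/
def W (n : ℕ) (u : ℝ) : ℝ :=
  (log u + log 2) ^ n * ((log (1 - u) + log 2) ^ (n + 1) - log 2 ^ (n + 1)) / u

theorem W_expand (n : ℕ) (u : ℝ) : W n u = ∑ m ∈ Finset.range (n + 1),
    ∑ q ∈ Finset.range (n + 1), (log 2 ^ (n - m) * (n.choose m : ℝ) *
      (log 2 ^ (n - q) * ((n + 1).choose (q + 1) : ℝ))) *
      (log u ^ m * log (1 - u) ^ (q + 1) / u) := by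
  have h1 := add_pow (log u) (log 2) n
  have h2 := add_pow (log (1 - u)) (log 2) (n + 1)
  rw [Finset.sum_range_succ' _ (n + 1)] at h2
  simp only [pow_zero, Nat.sub_zero, one_mul, Nat.choose_zero_right, Nat.cast_one, mul_one,
    Nat.add_sub_add_right] at h2
  unfold W
  rw [h1, h2, add_sub_cancel_right, Finset.sum_mul_sum, Finset.sum_div]
  refine Finset.sum_congr rfl fun m _ => ?_
  rw [Finset.sum_div]
  refine Finset.sum_congr rfl fun q _ => ?_
  ring

theorem W_integrable (n : ℕ) : IntegrableOn (W n) (Ioo 0 1) := by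
  have h : W n = fun u => ∑ m ∈ Finset.range (n + 1),
    ∑ q ∈ Finset.range (n + 1), (log 2 ^ (n - m) * (n.choose m : ℝ) *
      (log 2 ^ (n - q) * ((n + 1).choose (q + 1) : ℝ))) *
      (log u ^ m * log (1 - u) ^ (q + 1) / u) := funext (W_expand n)
  rw [h]
  exact integrable_finsetSum _ fun m _ => integrable_finsetSum _ fun q _ =>
    (J_integrable m (Nat.succ_le_succ (Nat.zero_le q))).const_mul _

theorem W_mem (n : ℕ) : ∫ u in Ioo (0 : ℝ) 1, W n u ∈ Alg := by
  simp only [W_expand]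
  rw [integral_finsetSum _ fun m _ => integrable_finsetSum _ fun q _ =>
    (J_integrable m (Nat.succ_le_succ (Nat.zero_le q))).const_mul _]
  refine Alg.sum_mem fun m _ => ?_
  rw [integral_finsetSum _ fun q _ =>
    (J_integrable m (Nat.succ_le_succ (Nat.zero_le q))).const_mul _]
  refine Alg.sum_mem fun q _ => ?_
  rw [integral_const_mul]
  refine Alg.mul_mem (Alg.mul_mem (Alg.mul_mem (Alg.pow_mem log2_mem _) ?_)
    (Alg.mul_mem (Alg.pow_mem log2_mem _) ?_)) (J_mem m (Nat.succ_le_succ (Nat.zero_le q)))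
  · have := rat_mem (n.choose m : ℚ)
    rwa [Rat.cast_natCast] at this
  · have := rat_mem ((n + 1).choose (q + 1) : ℚ)
    rwa [Rat.cast_natCast] at this

theorem W_int (n : ℕ) : IntervalIntegrable (W n) volume 0 1 :=
  (intervalIntegrable_iff_integrableOn_Ioo_of_le zero_le_one).2 (W_integrable n)

theorem W_int_right (n : ℕ) : IntervalIntegrable (W n) volume (1 / 2) 1 :=
  (W_int n).mono_set (by
    rw [uIcc_of_le (by norm_num), uIcc_of_le (by norm_num)]
    exact Icc_subset_Icc (by norm_num) le_rfl)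

theorem W_int_left (n : ℕ) : IntervalIntegrable (W n) volume 0 (1 / 2) :=
  (W_int n).mono_set (by
    rw [uIcc_of_le (by norm_num), uIcc_of_le (by norm_num)]
    exact Icc_subset_Icc le_rfl (by norm_num))

/-- the transformed integrand -/
def g (n : ℕ) (u : ℝ) : ℝ := (log (1 - u) + log 2) ^ (n + 1) * (log u + log 2) ^ n / u

theorem g_eq (n : ℕ) (u : ℝ) : g n u = W n u + log 2 ^ (n + 1) * ((log u + log 2) ^ n / u) := by
  unfold g W
  ring

theorem log_half : log (1 / 2) + log 2 = 0 := by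
  rw [one_div, log_inv, neg_add_cancel]

theorem h_int (n : ℕ) :
    IntervalIntegrable (fun u => (log u + log 2) ^ n / u) volume (1 / 2) 1 := by
  apply ContinuousOn.intervalIntegrable
  rw [uIcc_of_le (by norm_num)]
  intro u hu
  have : u ≠ 0 := by
    have := hu.1
    intro h
    rw [h] at this
    norm_num at this
  exact ((((continuousAt_log this).add continuousAt_const).pow n).div continuousAt_id
    this).continuousWithinAt

theorem h_val (n : ℕ) : ∫ u in (1 / 2 : ℝ)..1, (log u + log 2) ^ n / u =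
    log 2 ^ (n + 1) / ((n : ℝ) + 1) := by
  have h1 : ∀ u ∈ uIcc (1 / 2 : ℝ) 1,
      HasDerivAt (fun u => (log u + log 2) ^ (n + 1) / ((n : ℝ) + 1))
        ((log u + log 2) ^ n / u) u := by
    intro u hu
    rw [uIcc_of_le (by norm_num)] at hu
    have h0 : u ≠ 0 := by
      have := hu.1
      intro h
      rw [h] at this
      norm_num at this
    have h2 := ((((hasDerivAt_log h0).add_const (log 2)).pow (n + 1))).div_const ((n : ℝ) + 1)
    refine h2.congr_deriv ?_
    push_cast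
    have : (n : ℝ) + 1 ≠ 0 := by positivity
    field_simp
  rw [intervalIntegral.integral_eq_sub_of_hasDerivAt h1 (h_int n), log_half, log_one, zero_add,
    zero_pow (by omega), zero_div, sub_zero]

theorem g_int (n : ℕ) : IntervalIntegrable (g n) volume (1 / 2) 1 := by
  have h : g n = fun u => W n u + log 2 ^ (n + 1) * ((log u + log 2) ^ n / u) := funext (g_eq n)
  rw [h]
  exact (W_int_right n).add ((h_int n).const_mul _)

theorem g_val (n : ℕ) : ∫ u in (1 / 2 : ℝ)..1, g n u =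
    (∫ u in (1 / 2 : ℝ)..1, W n u) + log 2 ^ (2 * n + 2) / ((n : ℝ) + 1) := by
  simp only [g_eq]
  rw [intervalIntegral.integral_add (W_int_right n) ((h_int n).const_mul _),
    intervalIntegral.integral_const_mul, h_val]
  ring

/-- the primitive -/
def Ph (n : ℕ) (v : ℝ) : ℝ :=
  (log (1 - v) + log 2) ^ (n + 1) * ((log v + log 2) ^ (n + 1) - log 2 ^ (n + 1)) / ((n : ℝ) + 1)

theorem Ph_deriv (n : ℕ) {v : ℝ} (hv : v ∈ Ioo (1 / 2 : ℝ) 1) :
    HasDerivAt (Ph n) (g n v - W n (1 - v)) v := by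
  have h0 : v ≠ 0 := by
    have := hv.1
    intro h
    rw [h] at this
    norm_num at this
  have h1 : 1 - v ≠ 0 := by
    have := hv.2
    intro h
    linarith
  have ha := ((hasDerivAt_log h0).add_const (log 2)).pow (n + 1)
  have hb0 : HasDerivAt (fun v : ℝ => log (1 - v)) (-1 / (1 - v)) v :=
    ((hasDerivAt_id v).const_sub 1).log h1
  have hb := (hb0.add_const (log 2)).pow (n + 1)
  have h2 := (hb.mul (ha.sub_const (log 2 ^ (n + 1)))).div_const ((n : ℝ) + 1)
  have h3 : (n : ℝ) + 1 ≠ 0 := by positivity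
  refine h2.congr_deriv ?_
  unfold g W
  rw [sub_sub_cancel]
  simp only [Nat.add_sub_cancel, Pi.pow_apply]
  push_cast
  field_simp
  ring

theorem lim1 (m : ℕ) : Tendsto (fun v : ℝ => (log (1 - v) + log 2) ^ m * (1 - v)) (𝓝[<] 1)
    (𝓝 0) := by
  have h1 : Tendsto (fun v : ℝ => 2 * (1 - v)) (𝓝[<] 1) (𝓝[>] 0) := by
    refine tendsto_nhdsWithin_iff.2 ⟨?_, ?_⟩
    · have : ContinuousAt (fun v : ℝ => 2 * (1 - v)) 1 := by fun_prop
      have h := this.tendsto
      simp only [sub_self, mul_zero] at h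
      exact h.mono_left nhdsWithin_le_nhds
    · filter_upwards [self_mem_nhdsWithin] with v hv
      have : v < 1 := hv
      show (0 : ℝ) < 2 * (1 - v)
      linarith
  have h2 := (tendsto_pow_log_div_mul_add_atTop 1 0 m one_ne_zero).comp
    (tendsto_inv_nhdsGT_zero.comp h1)
  have h3 := h2.const_mul ((-1) ^ m / 2)
  rw [mul_zero] at h3
  refine h3.congr' ?_
  filter_upwards [self_mem_nhdsWithin] with v hv
  have hv' : 0 < 1 - v := by
    have : v < 1 := hv
    linarith
  simp only [Function.comp_apply]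
  rw [log_inv, log_mul (by norm_num) hv'.ne', one_mul, add_zero, div_inv_eq_mul,
    neg_pow (log 2 + log (1 - v)), add_comm (log 2)]
  have h4 : ((-1 : ℝ) ^ m) * (-1) ^ m = 1 := by
    rw [← mul_pow]
    norm_num
  calc (-1 : ℝ) ^ m / 2 * ((-1) ^ m * (log (1 - v) + log 2) ^ m * (2 * (1 - v)))
      = ((-1 : ℝ) ^ m * (-1) ^ m) * ((log (1 - v) + log 2) ^ m * (1 - v)) := by ring
    _ = _ := by rw [h4, one_mul]

theorem lim2 (m : ℕ) : Tendsto (fun v : ℝ => (log (1 - v) + log 2) ^ m * log v) (𝓝[<] 1)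
    (𝓝 0) := by
  have h1 := ((lim1 m).norm).const_mul 2
  rw [norm_zero, mul_zero] at h1
  refine squeeze_zero_norm' ?_ h1
  have h2 : ∀ᶠ v : ℝ in 𝓝[<] 1, v ∈ Ioo (1 / 2 : ℝ) 1 := Ioo_mem_nhdsLT (by norm_num)
  filter_upwards [h2] with v hv
  have hv0 : 0 < v := by linarith [hv.1]
  have h3 : |log v| ≤ 2 * |1 - v| := by
    rw [abs_of_neg (log_neg hv0 hv.2), abs_of_pos (by linarith [hv.2])]
    have h4 := one_sub_inv_le_log_of_pos hv0
    have h5 : v⁻¹ - 1 ≤ 2 * (1 - v) := by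
      rw [sub_le_iff_le_add, inv_le_iff_one_le_mul₀ hv0]
      nlinarith [hv.1, hv.2]
    linarith
  rw [Real.norm_eq_abs, Real.norm_eq_abs, abs_mul, abs_mul]
  nlinarith [abs_nonneg ((log (1 - v) + log 2) ^ m), abs_nonneg (log v)]

theorem lim3 (n : ℕ) : Tendsto (Ph n) (𝓝[<] 1) (𝓝 0) := by
  have h1 : Tendsto (fun v : ℝ => (∑ i ∈ Finset.range (n + 1),
      (log v + log 2) ^ i * log 2 ^ (n + 1 - 1 - i)) / ((n : ℝ) + 1)) (𝓝[<] 1)
      (𝓝 ((∑ i ∈ Finset.range (n + 1),
      (log 1 + log 2) ^ i * log 2 ^ (n + 1 - 1 - i)) / ((n : ℝ) + 1))) := by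
    refine Tendsto.div_const ?_ _
    refine tendsto_finsetSum _ fun i _ => ?_
    refine Tendsto.mul_const _ ?_
    refine Tendsto.pow ?_ i
    refine Tendsto.add_const _ ?_
    exact (continuousAt_log one_ne_zero).tendsto.mono_left nhdsWithin_le_nhds
  have h2 := (lim2 (n + 1)).mul h1
  rw [zero_mul] at h2
  refine h2.congr fun v => ?_
  unfold Ph
  have h3 := (Commute.all (log v + log 2) (log 2)).geom_sum₂_mul (n + 1)
  rw [add_sub_cancel_right] at h3
  rw [← h3]
  ring

theorem Ph_half (n : ℕ) : Tendsto (Ph n) (𝓝[>] (1 / 2)) (𝓝 0) := by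
  have h1 : ContinuousAt (Ph n) (1 / 2) := by
    unfold Ph
    refine ContinuousAt.div_const (ContinuousAt.mul ?_ ?_) _
    · refine ContinuousAt.pow (ContinuousAt.add ?_ continuousAt_const) _
      exact ContinuousAt.log (by fun_prop) (by norm_num)
    · refine ContinuousAt.sub (ContinuousAt.pow (ContinuousAt.add ?_ continuousAt_const) _)
        continuousAt_const
      exact continuousAt_log (by norm_num)
  have h2 : Ph n (1 / 2) = 0 := by
    unfold Ph
    rw [show (1 : ℝ) - 1 / 2 = 1 / 2 by norm_num, log_half, zero_pow (by omega), zero_mul,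
      zero_div]
  have h3 := h1.tendsto
  rw [h2] at h3
  exact h3.mono_left nhdsWithin_le_nhds

theorem Wr_int (n : ℕ) : IntervalIntegrable (fun v => W n (1 - v)) volume (1 / 2) 1 := by
  have h := (W_int_left n).comp_sub_left 1
  rw [sub_zero, show (1 : ℝ) - 1 / 2 = 1 / 2 by norm_num] at h
  exact h.symm

theorem g_val' (n : ℕ) : ∫ u in (1 / 2 : ℝ)..1, g n u = ∫ u in (0 : ℝ)..(1 / 2), W n u := by
  have h1 := intervalIntegral.integral_eq_sub_of_hasDerivAt_of_tendsto
    (by norm_num : (1 / 2 : ℝ) < 1) (fun v hv => Ph_deriv n hv)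
    ((g_int n).sub (Wr_int n)) (Ph_half n) (lim3 n)
  rw [intervalIntegral.integral_sub (g_int n) (Wr_int n), sub_zero, sub_eq_zero,
    intervalIntegral.integral_comp_sub_left (fun u => W n u), sub_self,
    show (1 : ℝ) - 1 / 2 = 1 / 2 by norm_num] at h1
  exact h1

theorem g_mem (n : ℕ) : ∫ u in (1 / 2 : ℝ)..1, g n u ∈ Alg := by
  have h1 : (∫ u in (0 : ℝ)..(1 / 2), W n u) + ∫ u in (1 / 2 : ℝ)..1, W n u =
      ∫ u in Ioo (0 : ℝ) 1, W n u := by
    rw [intervalIntegral.integral_add_adjacent_intervals (W_int_left n) (W_int_right n),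
      intervalIntegral.integral_of_le zero_le_one, integral_Ioc_eq_integral_Ioo]
  have h2 : ∫ u in (1 / 2 : ℝ)..1, g n u = (((1 / 2 : ℚ)) : ℝ) *
      ((∫ u in Ioo (0 : ℝ) 1, W n u) + (((1 / (n + 1) : ℚ)) : ℝ) * log 2 ^ (2 * n + 2)) := by
    have h3 := g_val n
    have h4 := g_val' n
    rw [← h1, ← h4]
    push_cast
    have h5 : (∫ u in (1 / 2 : ℝ)..1, W n u) =
        (∫ u in (1 / 2 : ℝ)..1, g n u) - log 2 ^ (2 * n + 2) / ((n : ℝ) + 1) := by
      rw [h3]
      ring
    rw [h5]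
    ring
  rw [h2]
  exact rat_mul _ (Alg.add_mem (W_mem n) (rat_mul _ (Alg.pow_mem log2_mem _)))

/-- the original integrand -/
def f (n : ℕ) (x : ℝ) : ℝ := log (1 - x) ^ (n + 1) * log (1 + x) ^ n / (1 + x)

theorem f_comp (n : ℕ) {u : ℝ} (hu : u ∈ Ioo (0 : ℝ) 1) : 2 * f n (2 * u - 1) = g n u := by
  unfold f g
  have h1 : 0 < 1 - u := by linarith [hu.2]
  have h2 : 0 < u := hu.1
  rw [show 1 - (2 * u - 1) = (1 - u) * 2 by ring, show 1 + (2 * u - 1) = u * 2 by ring,
    log_mul h1.ne' two_ne_zero, log_mul h2.ne' two_ne_zero]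
  field_simp

theorem f_int (n : ℕ) : IntervalIntegrable (f n) volume 0 1 := by
  have h1 := ((g_int n).comp_mul_left (c := 1 / 2)).comp_add_right 1
  rw [show (1 / 2 : ℝ) / (1 / 2) - 1 = 0 by norm_num, show (1 : ℝ) / (1 / 2) - 1 = 1 by norm_num]
    at h1
  have h2 := h1.const_mul (1 / 2)
  refine h2.congr_uIoo ?_
  intro x hx
  rw [uIoo_of_le zero_le_one] at hx
  have h3 : (1 / 2 * (x + 1) : ℝ) ∈ Ioo (0 : ℝ) 1 := by
    constructor
    · linarith [hx.1]
    · linarith [hx.2]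
  have h4 := f_comp n h3
  rw [show 2 * (1 / 2 * (x + 1)) - 1 = x by ring] at h4
  show 1 / 2 * g n (1 / 2 * (x + 1)) = f n x
  rw [← h4]
  ring

theorem f_val (n : ℕ) : ∫ x in (0 : ℝ)..1, f n x = ∫ u in (1 / 2 : ℝ)..1, g n u := by
  have h1 := intervalIntegral.integral_comp_mul_sub (a := 1 / 2) (b := 1) (f n)
    (two_ne_zero (α := ℝ)) 1
  rw [show (2 : ℝ) * (1 / 2) - 1 = 0 by norm_num, show (2 : ℝ) * 1 - 1 = 1 by norm_num,
    smul_eq_mul] at h1
  have h2 : ∫ x in (0 : ℝ)..1, f n x = 2 * ∫ u in (1 / 2 : ℝ)..1, f n (2 * u - 1) := by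
    rw [h1]
    ring
  rw [h2, ← intervalIntegral.integral_const_mul,
    intervalIntegral.integral_of_le (by norm_num), intervalIntegral.integral_of_le (by norm_num),
    integral_Ioc_eq_integral_Ioo, integral_Ioc_eq_integral_Ioo]
  refine setIntegral_congr_fun measurableSet_Ioo fun u hu => ?_
  exact f_comp n ⟨by linarith [hu.1], hu.2⟩

theorem f_mem (n : ℕ) : ∫ x in (0 : ℝ)..1, f n x ∈ Alg := by
  rw [f_val]
  exact g_mem n

theorem Zt_zeta {k : ℕ} (hk : 1 < k) : ((Zt k : ℝ) : ℂ) = riemannZeta k := by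
  rw [zeta_nat_eq_tsum_of_gt_one hk]
  have h0 : Summable fun n : ℕ => 1 / (n : ℝ) ^ k := Real.summable_one_div_nat_pow.2 hk
  have h1 : (∑' n : ℕ, 1 / (n : ℂ) ^ k) = ((∑' n : ℕ, 1 / (n : ℝ) ^ k : ℝ) : ℂ) := by
    rw [Complex.ofReal_tsum]
    refine tsum_congr fun n => ?_
    push_cast
    rfl
  rw [h1, h0.tsum_eq_zero_add]
  have h2 : 1 / ((0 : ℕ) : ℝ) ^ k = 0 := by
    simp [show k ≠ 0 by omega]
  rw [h2, zero_add]
  unfold Zt
  norm_cast

end Pool.Agent.Q164.LZ
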