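import Pool.Agent.Q164.LZ.LG

open Filter Topology Set Real MeasureTheory

noncomputable section

namespace Pool.Agent.Q164.LZ

/-- the weight -/
def Hf (α β u : ℝ) : ℝ := u ^ (-α) * (1 - u) ^ (-β)

theorem Hf_integrable {α β : ℝ} (hα : α < 1) (hβ : β < 1) :
    IntegrableOn (Hf α β) (Ioo 0 1) := by
  have h := Complex.betaIntegral_convergent (u := ((1 - α : ℝ) : ℂ)) (v := ((1 - β : ℝ) : ℂ))
    (by rw [Complex.ofReal_re]; linarith) (by rw [Complex.ofReal_re]; linarith)
  have h2 := h.norm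
  rw [intervalIntegrable_iff_integrableOn_Ioo_of_le zero_le_one] at h2
  refine h2.congr_fun ?_ measurableSet_Ioo
  intro u hu
  have h1u : (0 : ℝ) < 1 - u := by linarith [hu.2]
  simp only
  rw [norm_mul, Complex.norm_cpow_eq_rpow_re_of_pos hu.1]
  rw [show (1 : ℂ) - (u : ℂ) = ((1 - u : ℝ) : ℂ) by push_cast; rfl,
    Complex.norm_cpow_eq_rpow_re_of_pos h1u]
  unfold Hf
  congr 2
  · simp
  · simp

theorem beta_real {s t : ℝ} (hs : 0 < s) (ht : 0 < t) :
    ∫ u in Ioo (0 : ℝ) 1, u ^ (s - 1) * (1 - u) ^ (t - 1) =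
      Gamma s * Gamma t / Gamma (s + t) := by
  have h1 := ProbabilityTheory.beta_eq_betaIntegralReal s t hs ht
  rw [ProbabilityTheory.beta] at h1
  rw [h1]
  have h2 : Complex.betaIntegral s t =
      ((∫ u in (0 : ℝ)..1, u ^ (s - 1) * (1 - u) ^ (t - 1) : ℝ) : ℂ) := by
    rw [← intervalIntegral.integral_ofReal]
    unfold Complex.betaIntegral
    refine intervalIntegral.integral_congr fun u hu => ?_
    rw [uIcc_of_le zero_le_one] at hu
    rw [Complex.ofReal_mul, Complex.ofReal_cpow hu.1, Complex.ofReal_cpow (by linarith [hu.2])]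
    push_cast
    rfl
  rw [h2, Complex.ofReal_re, intervalIntegral.integral_of_le zero_le_one,
    integral_Ioc_eq_integral_Ioo]

/-- the integrands -/
def T (N : ℕ) (x u : ℝ) : ℝ := ((x * log u + log (1 - u)) ^ N - (x * log u) ^ N) / u

/-- the integrals -/
def Q (N : ℕ) (x : ℝ) : ℝ := ∫ u in Ioo (0 : ℝ) 1, T N x u

theorem hasSum_rexp (y : ℝ) : HasSum (fun n : ℕ => y ^ n / n.factorial) (exp y) := by
  rw [Real.exp_eq_exp_ℝ]
  exact NormedSpace.expSeries_div_hasSum_exp y

theorem T_abs {N : ℕ} {x u : ℝ} (hx : 0 < x) (hu : u ∈ Ioo (0 : ℝ) 1) :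
    |T N x u| = ((x * (-log u) + (-log (1 - u))) ^ N - (x * (-log u)) ^ N) / u := by
  have h1 : 0 < -log u := by linarith [log_neg hu.1 hu.2]
  have h2 : 0 < -log (1 - u) := by
    have := log_neg (x := 1 - u) (by linarith [hu.2]) (by linarith [hu.1])
    linarith
  have h3 : (x * (-log u)) ^ N ≤ (x * (-log u) + (-log (1 - u))) ^ N :=
    pow_le_pow_left₀ (by positivity) (by linarith) N
  unfold T
  rw [abs_div, abs_of_pos hu.1]
  congr 1
  have e1 : (x * log u + log (1 - u)) ^ N =
      (-1) ^ N * (x * (-log u) + (-log (1 - u))) ^ N := by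
    rw [← mul_pow]
    congr 1
    ring
  have e2 : (x * log u) ^ N = (-1) ^ N * (x * (-log u)) ^ N := by
    rw [← mul_pow]
    congr 1
    ring
  rw [e1, e2, ← mul_sub, abs_mul, abs_pow, abs_neg, abs_one, one_pow, one_mul,
    abs_of_nonneg (by linarith)]

theorem T_bound {x z u : ℝ} (hx : 0 < x) (hz : 0 < z) (hz1 : z ≤ 1) (hu : u ∈ Ioo (0 : ℝ) 1)
    (S : Finset ℕ) : ∑ N ∈ S, z ^ N / N.factorial * |T N x u| ≤ Hf (x * z) z u := by
  have hu0 := hu.1
  have hu1 : 0 < 1 - u := by linarith [hu.2]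
  set A := -log u with hA
  set B := -log (1 - u) with hB
  have hA0 : 0 < A := by rw [hA]; linarith [log_neg hu.1 hu.2]
  have hB0 : 0 < B := by
    have := log_neg (x := 1 - u) hu1 (by linarith)
    rw [hB]; linarith
  have h1 := (hasSum_rexp (z * (x * A + B))).sub (hasSum_rexp (z * (x * A)))
  have hterm : ∀ N : ℕ, z ^ N / N.factorial * |T N x u| =
      ((z * (x * A + B)) ^ N / N.factorial - (z * (x * A)) ^ N / N.factorial) / u := by
    intro N
    rw [T_abs hx hu, ← hA, ← hB, mul_pow, mul_pow z]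
    ring
  have hnn : ∀ N : ℕ, 0 ≤ (z * (x * A + B)) ^ N / N.factorial - (z * (x * A)) ^ N / N.factorial := by
    intro N
    have : (z * (x * A)) ^ N ≤ (z * (x * A + B)) ^ N := by
      apply pow_le_pow_left₀ (by positivity)
      nlinarith
    have h2 : (z * (x * A)) ^ N / N.factorial ≤ (z * (x * A + B)) ^ N / N.factorial := by gcongr
    linarith
  have h2 : ∑ N ∈ S, z ^ N / N.factorial * |T N x u| ≤
      (exp (z * (x * A + B)) - exp (z * (x * A))) / u := by
    rw [Finset.sum_congr rfl fun N _ => hterm N, ← Finset.sum_div]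
    exact div_le_div_of_nonneg_right (sum_le_hasSum S (fun N _ => hnn N) h1) hu0.le
  refine h2.trans ?_
  have e1 : exp (z * (x * A)) = u ^ (-(x * z)) := by
    rw [rpow_def_of_pos hu0, hA]
    congr 1
    ring
  have e2 : exp (z * B) = (1 - u) ^ (-z) := by
    rw [rpow_def_of_pos hu1, hB]
    congr 1
    ring
  have e3 : exp (z * (x * A + B)) = u ^ (-(x * z)) * (1 - u) ^ (-z) := by
    rw [← e1, ← e2, ← exp_add]
    congr 1
    ring
  rw [e3, e1]
  have h3 : 1 - u ≤ (1 - u) ^ z := by
    have := rpow_le_rpow_of_exponent_ge hu1 (by linarith) hz1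
    rwa [rpow_one] at this
  have h4 : (1 - u) ^ (-z) * (1 - u) ^ z = 1 := by
    rw [← rpow_add hu1, neg_add_cancel, rpow_zero]
  have h5 : 0 < (1 - u) ^ (-z) := rpow_pos_of_pos hu1 _
  have h6 : 0 < u ^ (-(x * z)) := rpow_pos_of_pos hu0 _
  have h7 : (1 - u) ^ (-z) - 1 ≤ u * (1 - u) ^ (-z) := by nlinarith
  unfold Hf
  rw [div_le_iff₀ hu0]
  nlinarith

theorem T_meas (N : ℕ) (x : ℝ) : Measurable (T N x) := by
  unfold T
  fun_prop

theorem T_integrable (N : ℕ) {x : ℝ} (hx : 0 < x) : IntegrableOn (T N x) (Ioo 0 1) := by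
  set z : ℝ := min (1 / 2) (1 / (2 * x)) with hz
  have hz0 : 0 < z := lt_min (by norm_num) (by positivity)
  have hz1 : z ≤ 1 / 2 := min_le_left _ _
  have hxz : x * z ≤ 1 / 2 := by
    calc x * z ≤ x * (1 / (2 * x)) := by
          gcongr
          exact min_le_right _ _
      _ = 1 / 2 := by field_simp
  have hH := Hf_integrable (α := x * z) (β := z) (by linarith) (by linarith)
  have hH2 : IntegrableOn (fun u => (N.factorial / z ^ N) * Hf (x * z) z u) (Ioo 0 1) :=
    hH.const_mul _
  refine Integrable.mono' hH2 (T_meas N x).aestronglyMeasurable ?_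
  rw [ae_restrict_iff' measurableSet_Ioo]
  refine Filter.Eventually.of_forall fun u hu => ?_
  have h1 := T_bound hx hz0 (by linarith) hu {N}
  rw [Finset.sum_singleton] at h1
  rw [Real.norm_eq_abs]
  have hzN : 0 < z ^ N := by positivity
  have hf : (0 : ℝ) < N.factorial := by exact_mod_cast Nat.factorial_pos N
  calc |T N x u| = (N.factorial / z ^ N) * (z ^ N / N.factorial * |T N x u|) := by field_simp
    _ ≤ _ := by gcongr

theorem norm_summable {x z : ℝ} (hx : 0 < x) (hz : 0 < z) (hz1 : z < 1) (hxz : x * z < 1) :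
    Summable fun N : ℕ => ∫ u in Ioo (0 : ℝ) 1, ‖z ^ N / N.factorial * T N x u‖ := by
  have hH := Hf_integrable (α := x * z) (β := z) hxz hz1
  refine summable_of_sum_le (c := ∫ u in Ioo (0 : ℝ) 1, Hf (x * z) z u)
    (fun N => integral_nonneg fun u => norm_nonneg _) fun S => ?_
  rw [← integral_finsetSum S fun N _ => ((T_integrable N hx).const_mul _).norm]
  refine setIntegral_mono_on (integrable_finsetSum S fun N _ =>
    ((T_integrable N hx).const_mul _).norm) hH measurableSet_Ioo fun u hu => ?_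
  refine le_trans (le_of_eq ?_) (T_bound hx hz hz1.le hu S)
  refine Finset.sum_congr rfl fun N _ => ?_
  rw [norm_mul, Real.norm_eq_abs, Real.norm_eq_abs, abs_of_pos (by positivity)]

theorem series_T {x z : ℝ} (hx : 0 < x) (hz : 0 < z) (hz1 : z < 1) (hxz : x * z < 1) :
    HasSum (fun N : ℕ => z ^ N / N.factorial * Q N x)
      (Gamma (x * z) * Gamma (z + 1) / Gamma (x * z + (z + 1)) - 1 / (x * z)) := by
  have hxz0 : 0 < x * z := by positivity
  have h1 := hasSum_integral_of_summable_integral_norm (μ := volume.restrict (Ioo (0 : ℝ) 1))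
    (F := fun (N : ℕ) u => z ^ N / N.factorial * T N x u)
    (fun N => (T_integrable N hx).const_mul _) (norm_summable hx hz hz1 hxz)
  have h2 : ∀ N : ℕ, ∫ u in Ioo (0 : ℝ) 1, z ^ N / N.factorial * T N x u =
      z ^ N / N.factorial * Q N x := fun N => integral_const_mul _ _
  simp only [h2] at h1
  have h3 : ∫ u in Ioo (0 : ℝ) 1, ∑' N : ℕ, z ^ N / N.factorial * T N x u =
      ∫ u in Ioo (0 : ℝ) 1, (u ^ (x * z - 1) * (1 - u) ^ (z + 1 - 1) -
        u ^ (x * z - 1) * (1 - u) ^ ((1 : ℝ) - 1)) := by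
    refine setIntegral_congr_fun measurableSet_Ioo fun u hu => ?_
    have hu0 := hu.1
    have hu1 : 0 < 1 - u := by linarith [hu.2]
    have g1 := ((hasSum_rexp (z * (x * log u + log (1 - u)))).sub
      (hasSum_rexp (z * (x * log u)))).div_const u
    have g2 : (fun N : ℕ => ((z * (x * log u + log (1 - u))) ^ N / N.factorial -
        (z * (x * log u)) ^ N / N.factorial) / u) = fun N : ℕ => z ^ N / N.factorial * T N x u := by
      funext N
      unfold T
      rw [mul_pow, mul_pow z]
      ring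
    rw [g2] at g1
    rw [g1.tsum_eq, sub_self, rpow_zero, mul_one, add_sub_cancel_right,
      rpow_sub hu0, rpow_one, rpow_def_of_pos hu0, rpow_def_of_pos hu1, sub_div,
      show z * (x * log u + log (1 - u)) = log u * (x * z) + log (1 - u) * z by ring, exp_add,
      show z * (x * log u) = log u * (x * z) by ring]
    ring
  have i1 : IntegrableOn (fun u : ℝ => u ^ (x * z - 1) * (1 - u) ^ (z + 1 - 1)) (Ioo 0 1) := by
    have := Hf_integrable (α := 1 - x * z) (β := -z) (by linarith) (by linarith)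
    refine this.congr_fun ?_ measurableSet_Ioo
    intro u _
    unfold Hf
    simp only
    rw [show -(1 - x * z) = x * z - 1 by ring, neg_neg, add_sub_cancel_right]
  have i2 : IntegrableOn (fun u : ℝ => u ^ (x * z - 1) * (1 - u) ^ ((1 : ℝ) - 1)) (Ioo 0 1) := by
    have := Hf_integrable (α := 1 - x * z) (β := 0) (by linarith) (by linarith)
    refine this.congr_fun ?_ measurableSet_Ioo
    intro u _
    unfold Hf
    simp only
    rw [show -(1 - x * z) = x * z - 1 by ring, neg_zero, sub_self]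
  rw [h3, integral_sub i1 i2, beta_real hxz0 (by linarith), beta_real hxz0 one_pos, Gamma_one,
    Gamma_add_one hxz0.ne', mul_one] at h1
  have hG : Gamma (x * z) ≠ 0 := (Gamma_pos_of_pos hxz0).ne'
  have h4 : Gamma (x * z) / (x * z * Gamma (x * z)) = 1 / (x * z) := by field_simp
  rw [h4] at h1
  exact h1

/-- Taylor coefficients -/
def a (x : ℝ) : ℕ → ℝ
  | 0 => 1
  | N + 1 => x * Q N x / N.factorial

theorem a_summ {x z : ℝ} (hx : 0 < x) (hz : 0 < z) (hz1 : z < 1) (hxz : x * z < 1) :
    Summable fun N => |a x N| * z ^ N := by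
  rw [← summable_nat_add_iff 1]
  have h1 := (norm_summable hx hz hz1 hxz).mul_left (x * z)
  refine Summable.of_nonneg_of_le (fun N => by positivity) (fun N => ?_) h1
  have h2 : |z ^ N / N.factorial * Q N x| ≤
      ∫ u in Ioo (0 : ℝ) 1, ‖z ^ N / N.factorial * T N x u‖ := by
    rw [Q, ← integral_const_mul, ← Real.norm_eq_abs]
    exact norm_integral_le_integral_norm _
  have h3 : |a x (N + 1)| * z ^ (N + 1) = (x * z) * |z ^ N / N.factorial * Q N x| := by
    have hf : (0 : ℝ) < N.factorial := by exact_mod_cast Nat.factorial_pos N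
    simp only [a]
    rw [abs_div, abs_mul, abs_mul, abs_div, abs_of_pos hx, abs_of_pos hf,
      abs_of_pos (pow_pos hz N), pow_succ]
    ring
  rw [h3]
  gcongr

theorem a_tsum {x z : ℝ} (hx : 0 < x) (hz : 0 < z) (hz1 : z < 1) (hxz : x * z < 1) :
    ∑' N, a x N * z ^ N = Gamma (1 + x * z) * Gamma (1 + z) / Gamma (1 + x * z + z) := by
  have hxz0 : 0 < x * z := by positivity
  have hs : Summable fun N => a x N * z ^ N :=
    summ (a_summ hx hz hz1 hxz) (by rw [abs_of_pos hz])
  rw [hs.tsum_eq_zero_add]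
  have h1 := (series_T hx hz hz1 hxz).mul_left (x * z)
  have h2 : ∀ N : ℕ, a x (N + 1) * z ^ (N + 1) = x * z * (z ^ N / N.factorial * Q N x) := by
    intro N
    simp only [a]
    rw [pow_succ]
    ring
  rw [tsum_congr h2, h1.tsum_eq]
  simp only [a, pow_zero, mul_one]
  have e1 : Gamma (1 + x * z) = x * z * Gamma (x * z) := by
    rw [add_comm, Gamma_add_one hxz0.ne']
  rw [e1, show 1 + x * z + z = x * z + (z + 1) by ring, add_comm 1 z]
  field_simp
  ring

end Pool.Agent.Q164.LZ
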