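import Pool.Agent.Q164.LZ.PS

open Filter Topology Set Real

noncomputable section

namespace Pool.Agent.Q164.LZ

/-- zeta values as real series -/
def Zt (k : ℕ) : ℝ := ∑' n : ℕ, 1 / ((n : ℝ) + 1) ^ k

/-- terms of the double series -/
def G (s t : ℝ) (m j : ℕ) : ℝ :=
  (-1) ^ (j + 1) * (s ^ (j + 1) + t ^ (j + 1) - (s + t) ^ (j + 1)) / ((j + 1 : ℕ) : ℝ) *
    (1 / ((m : ℝ) + 1) ^ (j + 1))

/-- coefficients -/
def E (s t : ℝ) (k : ℕ) : ℝ := (-1) ^ k * (s ^ k + t ^ k - (s + t) ^ k) / (k : ℝ) * Zt k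

theorem pow_bound {s t : ℝ} (hs : 0 ≤ s) (ht : 0 ≤ t) (j : ℕ) :
    |s ^ (j + 1) + t ^ (j + 1) - (s + t) ^ (j + 1)| ≤ (s + t) ^ (j + 1) := by
  have h1 : s ^ (j + 1) + t ^ (j + 1) ≤ (s + t) ^ (j + 1) := pow_add_pow_le hs ht (by omega)
  have h2 : 0 ≤ s ^ (j + 1) := by positivity
  have h3 : 0 ≤ t ^ (j + 1) := by positivity
  rw [abs_le]
  constructor <;> linarith

theorem hasSum_G {s t : ℝ} (hs : 0 < s) (ht : 0 < t) (hst : s + t < 1) (m : ℕ) :
    HasSum (G s t m) (-(log (1 + s + m) + log (1 + t + m) - log (1 + s + t + m) - log (1 + m))) := by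
  have hM : (0 : ℝ) < (m : ℝ) + 1 := by positivity
  have hM1 : (1 : ℝ) ≤ (m : ℝ) + 1 := by linarith [Nat.cast_nonneg (α := ℝ) m]
  have key : ∀ y : ℝ, 0 < y → y < 1 →
      HasSum (fun j : ℕ => (-(y / ((m : ℝ) + 1))) ^ (j + 1) / ((j : ℝ) + 1))
        (-(log (1 + y + m) - log (1 + m))) := by
    intro y hy hy1
    have h1 : |-(y / ((m : ℝ) + 1))| < 1 := by
      rw [abs_neg, abs_of_pos (by positivity), div_lt_one hM]
      linarith
    have h2 := hasSum_pow_div_log_of_abs_lt_one h1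
    have h3 : 1 - -(y / ((m : ℝ) + 1)) = (1 + y + m) / (1 + m) := by
      field_simp
      ring
    rw [h3, log_div (by positivity) (by positivity)] at h2
    exact h2
  have h1 := key s hs (by linarith)
  have h2 := key t ht (by linarith)
  have h3 := key (s + t) (by linarith) hst
  have h4 := (h1.add h2).sub h3
  have e1 : -(log (1 + s + m) + log (1 + t + m) - log (1 + s + t + m) - log (1 + m)) =
      -(log (1 + s + m) - log (1 + m)) + -(log (1 + t + m) - log (1 + m)) -
        -(log (1 + (s + t) + m) - log (1 + m)) := by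
    rw [show (1 : ℝ) + (s + t) + m = 1 + s + t + m by ring]
    ring
  rw [e1]
  have hfun : G s t m = fun j : ℕ =>
      (-(s / ((m : ℝ) + 1))) ^ (j + 1) / ((j : ℝ) + 1) +
        (-(t / ((m : ℝ) + 1))) ^ (j + 1) / ((j : ℝ) + 1) -
        (-((s + t) / ((m : ℝ) + 1))) ^ (j + 1) / ((j : ℝ) + 1) := by
    funext j
    unfold G
    push_cast
    have hM' : ((m : ℝ) + 1) ^ (j + 1) ≠ 0 := by positivity
    have hj : (j : ℝ) + 1 ≠ 0 := by positivity
    rw [neg_pow (s / ((m : ℝ) + 1)), neg_pow (t / ((m : ℝ) + 1)),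
      neg_pow ((s + t) / ((m : ℝ) + 1)), div_pow, div_pow, div_pow]
    field_simp
  rw [hfun]
  exact h4

theorem G_bound {s t : ℝ} (hs : 0 < s) (ht : 0 < t) (m j : ℕ) :
    ‖G s t m j‖ ≤ (s + t) ^ (j + 1) * (1 / ((m : ℝ) + 1) ^ 2) := by
  have hM1 : (1 : ℝ) ≤ (m : ℝ) + 1 := by linarith [Nat.cast_nonneg (α := ℝ) m]
  rcases j with _ | j
  · have : G s t m 0 = 0 := by
      unfold G
      simp
    rw [this, norm_zero]
    positivity
  · unfold G
    rw [norm_mul, norm_div, norm_mul, norm_pow, norm_neg, norm_one, one_pow, one_mul,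
      Real.norm_eq_abs, Real.norm_eq_abs, Real.norm_eq_abs, Nat.abs_cast]
    have h1 := pow_bound hs.le ht.le (j + 1)
    have h2 : (1 : ℝ) ≤ ((j + 1 + 1 : ℕ) : ℝ) := by
      exact_mod_cast Nat.succ_le_succ (Nat.zero_le _)
    have h3 : |1 / ((m : ℝ) + 1) ^ (j + 1 + 1)| ≤ 1 / ((m : ℝ) + 1) ^ 2 := by
      rw [abs_of_pos (by positivity)]
      apply one_div_le_one_div_of_le (by positivity)
      exact pow_le_pow_right₀ hM1 (by omega)
    have h4 : |s ^ (j + 1 + 1) + t ^ (j + 1 + 1) - (s + t) ^ (j + 1 + 1)| / ((j + 1 + 1 : ℕ) : ℝ) ≤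
        (s + t) ^ (j + 1 + 1) :=
      (div_le_self (abs_nonneg _) h2).trans h1
    exact mul_le_mul h4 h3 (abs_nonneg _) (by positivity)

theorem summable_sq : Summable fun m : ℕ => 1 / ((m : ℝ) + 1) ^ 2 := by
  have := (summable_nat_add_iff 1).2 (Real.summable_one_div_nat_pow.2 (by norm_num : 1 < 2))
  refine this.congr fun m => ?_
  push_cast
  rfl

theorem summable_G {s t : ℝ} (hs : 0 < s) (ht : 0 < t) (hst : s + t < 1) :
    Summable fun q : ℕ × ℕ => G s t q.1 q.2 := by
  have h1 : Summable fun j : ℕ => (s + t) ^ (j + 1) :=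
    (summable_nat_add_iff 1).2 (summable_geometric_of_lt_one (by positivity) hst)
  have h2 : Summable fun q : ℕ × ℕ => (1 / ((q.1 : ℝ) + 1) ^ 2) * (s + t) ^ (q.2 + 1) :=
    summable_sq.mul_of_nonneg h1 (fun m => by positivity) (fun j => by positivity)
  refine Summable.of_norm_bounded h2 fun q => ?_
  rw [mul_comm]
  exact G_bound hs ht q.1 q.2

theorem logGamma_series {s t : ℝ} (hs : 0 < s) (ht : 0 < t) (hst : s + t < 1) :
    log (Gamma (1 + s)) + log (Gamma (1 + t)) - log (Gamma (1 + s + t)) = ∑' k, E s t k := by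
  have hG := summable_G hs ht hst
  -- sum over m
  have hm : HasSum (fun m : ℕ =>
      -(log (1 + s + m) + log (1 + t + m) - log (1 + s + t + m) - log (1 + m)))
      (∑' m : ℕ, ∑' j : ℕ, G s t m j) := by
    have h1 := hG.hasSum.prod_fiberwise (fun m => hasSum_G hs ht hst m)
    rw [hG.tsum_prod] at h1
    exact h1
  have hlim1 := (hm.tendsto_sum_nat).comp (tendsto_add_atTop_nat 1)
  have hlim2 := (((BohrMollerup.tendsto_log_gamma (x := 1 + s) (by positivity)).add
    (BohrMollerup.tendsto_log_gamma (x := 1 + t) (by positivity))).sub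
    (BohrMollerup.tendsto_log_gamma (x := 1 + s + t) (by positivity))).sub
    (BohrMollerup.tendsto_log_gamma (x := 1) one_pos)
  rw [Gamma_one, log_one, sub_zero] at hlim2
  have heq : (fun n => BohrMollerup.logGammaSeq (1 + s) n + BohrMollerup.logGammaSeq (1 + t) n -
      BohrMollerup.logGammaSeq (1 + s + t) n - BohrMollerup.logGammaSeq 1 n) =
      (fun n => ∑ m ∈ Finset.range n,
        -(log (1 + s + m) + log (1 + t + m) - log (1 + s + t + m) - log (1 + m))) ∘
        fun n => n + 1 := by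
    ext n
    simp only [BohrMollerup.logGammaSeq, Function.comp_apply, Finset.sum_neg_distrib,
      Finset.sum_sub_distrib, Finset.sum_add_distrib]
    ring
  have h3 := tendsto_nhds_unique (hlim2.congr (fun n => congrFun heq n)) hlim1
  have hsw' : ∑' j, ∑' m, G s t m j = ∑' m, ∑' j, G s t m j :=
    Summable.tsum_comm' (f := fun m j => G s t m j) hG (fun m => hG.prod_factor m)
      (fun j => hG.prod_symm.prod_factor j)
  rw [h3, ← hsw']
  · -- sum over j
    have hE0 : E s t 0 = 0 := by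
      unfold E
      simp
    have hsw : Summable fun j : ℕ => ∑' m : ℕ, G s t m j := by
      have := hG.prod_symm.prod
      exact this
    have hEj : ∀ j, ∑' m : ℕ, G s t m j = E s t (j + 1) := by
      intro j
      unfold G E Zt
      rw [tsum_mul_left]
    have hEs : Summable fun j => E s t (j + 1) := hsw.congr fun j => hEj j
    have hEs' : Summable (E s t) := (summable_nat_add_iff 1).1 hEs
    rw [hEs'.tsum_eq_zero_add, hE0, zero_add]
    exact tsum_congr hEj

/-- coefficients after scaling -/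
def e (x : ℝ) (k : ℕ) : ℝ := (-1) ^ k * (x ^ k + 1 - (x + 1) ^ k) / (k : ℝ) * Zt k

theorem E_scale (x z : ℝ) (k : ℕ) : E (x * z) z k = e x k * z ^ k := by
  unfold E e
  rw [show x * z + z = (x + 1) * z by ring, mul_pow, mul_pow]
  ring

theorem Zt_nonneg (k : ℕ) : 0 ≤ Zt k := tsum_nonneg fun n => by positivity

theorem Zt_le (k : ℕ) : Zt (k + 2) ≤ Zt 2 := by
  have h1 : ∀ n : ℕ, 1 / ((n : ℝ) + 1) ^ (k + 2) ≤ 1 / ((n : ℝ) + 1) ^ 2 := by
    intro n
    have hM1 : (1 : ℝ) ≤ (n : ℝ) + 1 := by linarith [Nat.cast_nonneg (α := ℝ) n]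
    apply one_div_le_one_div_of_le (by positivity)
    exact pow_le_pow_right₀ hM1 (by omega)
  exact Summable.tsum_le_tsum h1
    (Summable.of_nonneg_of_le (fun n => by positivity) h1 summable_sq) summable_sq

theorem e_summ {x : ℝ} (hx : 0 < x) {r : ℝ} (hr : 0 < r) (hr1 : (x + 1) * r < 1) :
    Summable fun k => |e x k| * r ^ k := by
  have h1 : Summable fun k : ℕ => ((x + 1) * r) ^ k * Zt 2 :=
    (summable_geometric_of_lt_one (by positivity) hr1).mul_right _
  refine Summable.of_nonneg_of_le (fun k => by positivity) (fun k => ?_) h1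
  rcases k with _ | _ | k
  · have : e x 0 = 0 := by unfold e; simp
    rw [this]
    have := Zt_nonneg 2
    simp
    exact this
  · have : e x (0 + 1) = 0 := by unfold e; simp
    rw [this]
    have := Zt_nonneg 2
    simp only [abs_zero, zero_mul]
    positivity
  · have h2 := pow_bound hx.le zero_le_one (k + 1)
    rw [one_pow] at h2
    unfold e
    rw [abs_mul, abs_div, abs_mul, abs_pow, abs_neg, abs_one, one_pow, one_mul, Nat.abs_cast,
      abs_of_nonneg (Zt_nonneg _)]
    have h3 : (1 : ℝ) ≤ ((k + 1 + 1 : ℕ) : ℝ) := by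
      exact_mod_cast Nat.succ_le_succ (Nat.zero_le _)
    have h4 : |x ^ (k + 1 + 1) + 1 - (x + 1) ^ (k + 1 + 1)| / ((k + 1 + 1 : ℕ) : ℝ) ≤
        (x + 1) ^ (k + 1 + 1) := (div_le_self (abs_nonneg _) h3).trans h2
    calc |x ^ (k + 1 + 1) + 1 - (x + 1) ^ (k + 1 + 1)| / ((k + 1 + 1 : ℕ) : ℝ) * Zt (k + 1 + 1) *
          r ^ (k + 1 + 1) ≤ (x + 1) ^ (k + 1 + 1) * Zt 2 * r ^ (k + 1 + 1) := by
          gcongr
          · exact Zt_nonneg _
          · exact Zt_le k
      _ = _ := by
        rw [mul_pow]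
        ring

/-- the ratio of Gamma values as an exponential -/
theorem Gamma_ratio {x z : ℝ} (hx : 0 < x) (hz : 0 < z) (h : (x + 1) * z < 1) :
    Gamma (1 + x * z) * Gamma (1 + z) / Gamma (1 + x * z + z) = exp (∑' k, e x k * z ^ k) := by
  have hxz : 0 < x * z := by positivity
  have h1 := logGamma_series hxz hz (by nlinarith)
  have g1 : 0 < Gamma (1 + x * z) := Gamma_pos_of_pos (by positivity)
  have g2 : 0 < Gamma (1 + z) := Gamma_pos_of_pos (by positivity)
  have g3 : 0 < Gamma (1 + x * z + z) := Gamma_pos_of_pos (by positivity)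
  rw [tsum_congr (fun k => E_scale x z k)] at h1
  rw [← h1, exp_sub, exp_add, exp_log g1, exp_log g2, exp_log g3]

end Pool.Agent.Q164.LZ
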