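import Mathlib

open Filter Topology Set

noncomputable section

namespace Pool.Agent.Q164.LZ

/-- bound for the terms -/
theorem term_le {a : ℕ → ℝ} {r : ℝ} {z : ℝ} (hz : |z| ≤ r) (n : ℕ) :
    ‖a n * z ^ n‖ ≤ |a n| * r ^ n := by
  rw [Real.norm_eq_abs, abs_mul, abs_pow]
  gcongr

theorem summ {a : ℕ → ℝ} {r : ℝ} (ha : Summable fun n => |a n| * r ^ n) {z : ℝ} (hz : |z| ≤ r) :
    Summable fun n => a n * z ^ n :=
  Summable.of_norm_bounded ha fun n => term_le hz n

theorem summ_norm {a : ℕ → ℝ} {r : ℝ} (ha : Summable fun n => |a n| * r ^ n) {z : ℝ}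
    (hz : |z| ≤ r) : Summable fun n => ‖a n * z ^ n‖ :=
  Summable.of_nonneg_of_le (fun n => norm_nonneg _) (fun n => term_le hz n) ha

/-- uniqueness of power series coefficients (one-sided) -/
theorem uniq {a : ℕ → ℝ} {r : ℝ} (hr : 0 < r) (ha : Summable fun n => |a n| * r ^ n)
    (h : ∀ z ∈ Ioo 0 r, ∑' n, a n * z ^ n = 0) (n : ℕ) : a n = 0 := by
  induction n using Nat.strong_induction_on with
  | _ n ih =>
    -- shifted series
    have hs : Summable fun k => |a (k + n)| * r ^ (k + n) := (summable_nat_add_iff n).2 ha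
    have hs' : Summable fun k => |a (k + n)| * r ^ k := by
      have := hs.mul_right ((r ^ n)⁻¹)
      refine this.congr fun k => ?_
      rw [pow_add]
      have : r ^ n ≠ 0 := by positivity
      field_simp
    have hz : ∀ z ∈ Ioo 0 r, ∑' k, a (k + n) * z ^ k = 0 := by
      intro z hz
      have h1 := h z hz
      have hzr : |z| ≤ r := by rw [abs_of_pos hz.1]; exact hz.2.le
      rw [← (summ ha hzr).sum_add_tsum_nat_add n] at h1
      rw [Finset.sum_eq_zero (fun k hk => by
        rw [ih k (Finset.mem_range.1 hk), zero_mul]), zero_add] at h1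
      have h2 : ∀ k, a (k + n) * z ^ (k + n) = z ^ n * (a (k + n) * z ^ k) := by
        intro k
        rw [pow_add]
        ring
      rw [tsum_congr h2, tsum_mul_left] at h1
      have hzn : z ^ n ≠ 0 := (pow_pos hz.1 n).ne'
      exact (mul_eq_zero.1 h1).resolve_left hzn
    -- a n + z * (..) = 0
    set M : ℝ := ∑' k, |a (k + 1 + n)| * r ^ k with hM
    have hs1 : Summable fun k => |a (k + 1 + n)| * r ^ (k + 1) := (summable_nat_add_iff 1).2 hs'
    have hs2 : Summable fun k => |a (k + 1 + n)| * r ^ k := by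
      have := hs1.mul_right (r⁻¹)
      refine this.congr fun k => ?_
      rw [pow_succ]
      field_simp
    have hbound : ∀ z ∈ Ioo 0 r, |a n| ≤ z * M := by
      intro z hz'
      have h1 := hz z hz'
      have hzr : |z| ≤ r := by rw [abs_of_pos hz'.1]; exact hz'.2.le
      have h2 : Summable fun k => a (k + n) * z ^ k := summ hs' hzr
      rw [h2.tsum_eq_zero_add, zero_add, pow_zero, mul_one] at h1
      have h3 : ∀ k, a (k + 1 + n) * z ^ (k + 1) = z * (a (k + 1 + n) * z ^ k) := by
        intro k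
        rw [pow_succ]
        ring
      rw [tsum_congr h3, tsum_mul_left] at h1
      have h4 : |∑' k, a (k + 1 + n) * z ^ k| ≤ M := by
        rw [← Real.norm_eq_abs]
        refine (norm_tsum_le_tsum_norm (summ_norm hs2 hzr)).trans ?_
        exact Summable.tsum_le_tsum (fun k => term_le (a := fun k => a (k + 1 + n)) hzr k)
          (summ_norm (a := fun k => a (k + 1 + n)) hs2 hzr) hs2
      have h5 : a n = -(z * ∑' k, a (k + 1 + n) * z ^ k) := by linarith
      rw [h5, abs_neg, abs_mul, abs_of_pos hz'.1]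
      exact mul_le_mul_of_nonneg_left h4 hz'.1.le
    by_contra hne
    have hpos : 0 < |a n| := abs_pos.2 hne
    have hM0 : 0 ≤ M := tsum_nonneg fun k => by positivity
    set z : ℝ := min (r / 2) (|a n| / (2 * (M + 1))) with hzdef
    have hz0 : 0 < z := lt_min (by linarith) (by positivity)
    have h6 := hbound z ⟨hz0, lt_of_le_of_lt (min_le_left _ _) (by linarith)⟩
    have h7 : z * M ≤ |a n| / 2 := by
      calc z * M ≤ |a n| / (2 * (M + 1)) * M := by
            gcongr
            exact min_le_right _ _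
        _ ≤ |a n| / 2 := by
          rw [div_mul_eq_mul_div, div_le_div_iff₀ (by positivity) (by norm_num)]
          nlinarith
    linarith

/-- derivative of a power series -/
theorem deriv_ps {a : ℕ → ℝ} {r : ℝ} (hr : 0 < r) (ha : Summable fun n => |a n| * r ^ n)
    {z : ℝ} (hz : |z| < r / 2) :
    HasDerivAt (fun z => ∑' n, a n * z ^ n)
      (∑' n : ℕ, ((n + 1 : ℕ) : ℝ) * a (n + 1) * z ^ n) z := by
  have hu : Summable fun n => |a n| * r ^ n / r := ha.div_const r
  have key : ∀ (n : ℕ) (y : ℝ), |y| ≤ r / 2 → ‖a n * (n * y ^ (n - 1))‖ ≤ |a n| * r ^ n / r := by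
    intro n y hy
    rcases n with _ | n
    · simp
      positivity
    · rw [Nat.add_sub_cancel, Real.norm_eq_abs, abs_mul, abs_mul, abs_pow, Nat.abs_cast]
      have h1 : ((n + 1 : ℕ) : ℝ) ≤ 2 ^ n := by
        have := Nat.lt_two_pow_self (n := n)
        exact_mod_cast this
      calc |a (n + 1)| * (((n + 1 : ℕ) : ℝ) * |y| ^ n)
          ≤ |a (n + 1)| * (2 ^ n * (r / 2) ^ n) := by gcongr
        _ = |a (n + 1)| * r ^ (n + 1) / r := by
          rw [div_pow, pow_succ]
          have : (2 : ℝ) ^ n ≠ 0 := by positivity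
          field_simp
  have h := hasDerivAt_tsum_of_isPreconnected (g := fun n y => a n * y ^ n)
    (g' := fun n y => a n * (n * y ^ (n - 1))) (u := fun n => |a n| * r ^ n / r)
    (t := Ioo (-(r / 2)) (r / 2)) (y₀ := 0) (y := z) hu isOpen_Ioo isPreconnected_Ioo
    (fun n y _ => (hasDerivAt_pow n y).const_mul (a n))
    (fun n y hy => key n y (abs_le.2 ⟨hy.1.le, hy.2.le⟩))
    ⟨by linarith, by linarith⟩ (summ ha (by rw [abs_zero]; exact hr.le)) (abs_lt.1 hz)
  have hsum : Summable fun n => a n * (n * z ^ (n - 1)) :=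
    Summable.of_norm_bounded hu fun n => key n z hz.le
  rw [hsum.tsum_eq_zero_add] at h
  simp only [Nat.cast_zero, zero_mul, mul_zero, zero_add, Nat.add_sub_cancel] at h
  have e : (∑' n : ℕ, ((n + 1 : ℕ) : ℝ) * a (n + 1) * z ^ n) =
      ∑' n : ℕ, a (n + 1) * (((n + 1 : ℕ) : ℝ) * z ^ n) := tsum_congr fun n => by ring
  rw [e]
  exact h

theorem deriv_summ {a : ℕ → ℝ} {r : ℝ} (hr : 0 < r) (ha : Summable fun n => |a n| * r ^ n) :
    Summable fun n : ℕ => |((n + 1 : ℕ) : ℝ) * a (n + 1)| * (r / 2) ^ n := by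
  have h0 : Summable fun n => |a (n + 1)| * r ^ (n + 1) :=
    (summable_nat_add_iff (f := fun n => |a n| * r ^ n) 1).2 ha
  have h1 : Summable fun n => |a (n + 1)| * r ^ (n + 1) / r := h0.div_const r
  refine Summable.of_nonneg_of_le (fun n => by positivity) (fun n => ?_) h1
  have h2 : ((n + 1 : ℕ) : ℝ) ≤ 2 ^ n := by
    have := Nat.lt_two_pow_self (n := n)
    exact_mod_cast this
  rw [abs_mul, Nat.abs_cast]
  calc ((n + 1 : ℕ) : ℝ) * |a (n + 1)| * (r / 2) ^ n
      ≤ 2 ^ n * |a (n + 1)| * (r / 2) ^ n := by gcongr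
    _ = |a (n + 1)| * r ^ (n + 1) / r := by
      rw [div_pow, pow_succ]
      have : (2 : ℝ) ^ n ≠ 0 := by positivity
      field_simp

theorem mono_summ {a : ℕ → ℝ} {r s : ℝ} (hs : 0 ≤ s) (hsr : s ≤ r)
    (ha : Summable fun n => |a n| * r ^ n) : Summable fun n => |a n| * s ^ n :=
  Summable.of_nonneg_of_le (fun n => by positivity) (fun n => by gcongr) ha

/-- the recursion for the coefficients of an exponential -/
theorem exp_rec {a d : ℕ → ℝ} {r : ℝ} (hr : 0 < r) (ha : Summable fun n => |a n| * r ^ n)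
    (hd : Summable fun n => |d n| * r ^ n)
    (h : ∀ z ∈ Ioo 0 r, ∑' n, a n * z ^ n = Real.exp (∑' n, d n * z ^ n)) (N : ℕ) :
    ((N + 1 : ℕ) : ℝ) * a (N + 1) =
      ∑ k ∈ Finset.range (N + 1), (((k + 1 : ℕ) : ℝ) * d (k + 1)) * a (N - k) := by
  have ha' := deriv_summ hr ha
  have hd' := deriv_summ hr hd
  have ha2 : Summable fun n => |a n| * (r / 2) ^ n := mono_summ (by linarith) (by linarith) ha
  set p : ℕ → ℝ := fun N => ∑ k ∈ Finset.range (N + 1),
    (((k + 1 : ℕ) : ℝ) * d (k + 1)) * a (N - k) with hp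
  have hprod : ∀ z : ℝ, |z| ≤ r / 2 →
      (∑' n : ℕ, ((n + 1 : ℕ) : ℝ) * d (n + 1) * z ^ n) * (∑' n, a n * z ^ n) =
        ∑' n, p n * z ^ n := by
    intro z hz
    rw [tsum_mul_tsum_eq_tsum_sum_range_of_summable_norm
      (summ_norm (a := fun n : ℕ => ((n + 1 : ℕ) : ℝ) * d (n + 1)) hd' hz) (summ_norm ha2 hz)]
    refine tsum_congr fun n => ?_
    rw [hp]
    simp only
    rw [Finset.sum_mul]
    refine Finset.sum_congr rfl fun k hk => ?_
    have : z ^ n = z ^ k * z ^ (n - k) := by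
      rw [← pow_add]
      congr 1
      have := Finset.mem_range.1 hk
      omega
    rw [this]
    ring
  have hpsum : Summable fun n => |p n| * (r / 2) ^ n := by
    have h1 := summable_norm_sum_mul_range_of_summable_norm
      (f := fun n : ℕ => |((n + 1 : ℕ) : ℝ) * d (n + 1)| * (r / 2) ^ n)
      (g := fun n => |a n| * (r / 2) ^ n) (by simpa using hd'.norm) (by simpa using ha2.norm)
    refine Summable.of_nonneg_of_le (fun n => by positivity) (fun n => ?_) h1
    rw [Real.norm_eq_abs]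
    refine le_trans ?_ (le_abs_self _)
    rw [hp]
    simp only
    refine (mul_le_mul_of_nonneg_right (Finset.abs_sum_le_sum_abs _ _) (by positivity)).trans ?_
    rw [Finset.sum_mul]
    refine Finset.sum_le_sum fun k hk => ?_
    have : (r / 2) ^ n = (r / 2) ^ k * (r / 2) ^ (n - k) := by
      rw [← pow_add]
      congr 1
      have := Finset.mem_range.1 hk
      omega
    rw [this, abs_mul]
    apply le_of_eq
    ring
  have hdiff : ∀ z ∈ Ioo 0 (r / 2),
      ∑' n : ℕ, (((n + 1 : ℕ) : ℝ) * a (n + 1) - p n) * z ^ n = 0 := by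
    intro z hz
    have hzr : |z| ≤ r / 2 := by rw [abs_of_pos hz.1]; exact hz.2.le
    have hzr' : |z| < r / 2 := by rw [abs_of_pos hz.1]; exact hz.2
    have d1 := deriv_ps hr ha hzr'
    have d2 := (deriv_ps hr hd hzr').exp
    have d3 : (fun z => ∑' n, a n * z ^ n) =ᶠ[𝓝 z] fun z => Real.exp (∑' n, d n * z ^ n) := by
      filter_upwards [isOpen_Ioo.mem_nhds (show z ∈ Ioo 0 r from ⟨hz.1, by linarith [hz.2]⟩)]
        with y hy
      exact h y hy
    have d4 := (d2.congr_of_eventuallyEq d3).unique d1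
    rw [← h z ⟨hz.1, by linarith [hz.2]⟩, mul_comm, hprod z hzr] at d4
    have s1 : Summable fun n : ℕ => ((n + 1 : ℕ) : ℝ) * a (n + 1) * z ^ n :=
      summ (a := fun n : ℕ => ((n + 1 : ℕ) : ℝ) * a (n + 1)) ha' hzr
    have s2 : Summable fun n => p n * z ^ n := summ hpsum hzr
    have : ∀ n : ℕ, (((n + 1 : ℕ) : ℝ) * a (n + 1) - p n) * z ^ n =
        ((n + 1 : ℕ) : ℝ) * a (n + 1) * z ^ n - p n * z ^ n := fun n => by ring
    rw [tsum_congr this, s1.tsum_sub s2, ← d4, sub_self]
  have hsumdiff : Summable fun n : ℕ => |((n + 1 : ℕ) : ℝ) * a (n + 1) - p n| * (r / 2) ^ n := by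
    refine Summable.of_nonneg_of_le (fun n => by positivity) (fun n => ?_) (ha'.add hpsum)
    rw [← add_mul]
    gcongr
    exact abs_sub _ _
  have := uniq (a := fun n : ℕ => ((n + 1 : ℕ) : ℝ) * a (n + 1) - p n) (by linarith) hsumdiff
    hdiff N
  linarith

end Pool.Agent.Q164.LZ
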